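import Pool.Agent.Helper71.BM.Basic

/-!
# The reversed form of the lemma on linkages near the end of an ear
-/

set_option autoImplicit false

namespace Pool.Agent.Helper71.BM

open Finset ErdPos

lemma nearr_core {V : Type} (L : ℕ) (l : List V) : core L l.reverse = (core L l).reverse := by
  unfold core
  rcases Nat.lt_or_ge l.length (2 * L) with h | h
  · have h1 : l.length - 2 * L = 0 := by omega
    rw [List.length_reverse, h1]
    simp
  · have h1 : (l.take (l.length - L)).length - (l.length - 2 * L) = L := by
      rw [List.length_take]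
      omega
    rw [List.length_reverse, List.drop_reverse, List.take_reverse, h1, List.drop_take]
    congr 2
    omega

theorem st_NEARR (h1 : ST_NEAR) : ST_NEARR := by
  intro V _ _ G k e K q N w W t hC s lam Lam E1 E2 Y m hp P hO l hl B hB hBl hBi hBf
  obtain ⟨P1, P2, rfl⟩ := List.append_of_mem hl
  have hlen : (P1 ++ l.reverse :: P2).length = (P1 ++ l :: P2).length := by simp
  have hflen : (P1 ++ l.reverse :: P2).flatten.length = (P1 ++ l :: P2).flatten.length := by
    simp only [List.flatten_append, List.flatten_cons, List.length_append, List.length_reverse]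
  obtain ⟨⟨hP, hE, hk⟩, hopt⟩ := hO
  have hperm : (P1 ++ l :: P2).flatten.Perm (P1 ++ l.reverse :: P2).flatten := by
    simp only [List.flatten_append, List.flatten_cons]
    exact List.Perm.append_left _ (List.Perm.append_right _ (List.reverse_perm l).symm)
  have hmem : ∀ l' ∈ P1 ++ l.reverse :: P2, l' = l.reverse ∨ l' ∈ P1 ++ l :: P2 := by
    intro l' hl'
    rw [List.mem_append, List.mem_cons] at hl'
    rcases hl' with h | h | h
    · exact Or.inr (List.mem_append_left _ h)
    · exact Or.inl h
    · exact Or.inr (List.mem_append_right _ (List.mem_cons_of_mem _ h))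
  have hP' : Pkg G q W t (P1 ++ l.reverse :: P2) := by
    refine ⟨(hperm.nodup_iff).1 hP.1, fun l' hl' => ?_⟩
    rcases hmem l' hl' with rfl | h
    · obtain ⟨a, b, hab⟩ := hP.2 l hl
      exact ⟨b, a, hab.reverse⟩
    · exact hP.2 l' h
  have hO' : Opt G k q W t E1 Y (P1 ++ l.reverse :: P2) := by
    refine ⟨⟨hP', fun l' hl' => ?_, by rw [hflen]; exact hk⟩, ?_⟩
    · rcases hmem l' hl' with rfl | h
      · rw [List.length_reverse]
        exact hE l hl
      · exact hE l' h
    · intro P' h2 h3 h4
      rw [hlen, hflen]
      exact hopt P' h2 h3 h4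
  have hU : Ucore Lam (P1 ++ l.reverse :: P2) = Ucore Lam (P1 ++ l :: P2) := by
    ext v
    unfold Ucore
    simp only [List.map_append, List.map_cons, List.flatten_append, List.flatten_cons,
      List.mem_toFinset, List.mem_append, nearr_core, List.mem_reverse]
  refine h1 V G k e K q N w W t hC s lam Lam E1 E2 Y m hp (P1 ++ l.reverse :: P2) hO' l.reverse
    (by simp) B ?_ ?_ hBi ?_
  · rw [hU]
    exact hB
  · rw [hlen]
    exact hBl
  · rw [hlen]
    exact hBf

end Pool.Agent.Helper71.BM
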