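import Pool.Agent.Helper71.BM.Basic

/-!
# Properties of optimal packings
-/

set_option autoImplicit false

namespace Pool.Agent.Helper71.BM

open Finset ErdPos

lemma opp_len {V : Type} (c : ℕ) : ∀ P : List (List V), (∀ l ∈ P, c ≤ l.length) →
    P.length * c ≤ P.flatten.length := by
  intro P
  induction P with
  | nil => simp
  | cons l P ih =>
    intro h
    have h1 := h l List.mem_cons_self
    have h2 := ih (fun l' hl' => h l' (List.mem_cons_of_mem _ hl'))
    rw [List.flatten_cons, List.length_append, List.length_cons, Nat.succ_mul]
    omega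

theorem st_OPP (h1 : ST_LNG) : ST_OPP := by
  classical
  intro V _ _ G k e K q N w W t hC s lam Lam E1 E2 Y m hp P hO
  obtain ⟨⟨hP, hE, hk⟩, hopt⟩ := hO
  have hk3 := hp.k3
  have hlng := h1 V G k e K q N w W t hC hp.k3 hp.we P hP hk
  have hne : P ≠ [] := by
    rintro rfl
    simp at hk
    omega
  have hlen1 : 1 ≤ P.length := by
    rcases Nat.eq_zero_or_pos P.length with h | h
    · exact absurd (List.length_eq_zero_iff.1 h) hne
    · exact h
  have herase : ∀ l ∈ P, P.flatten.length = l.length + (P.erase l).flatten.length ∧
      P.length = (P.erase l).length + 1 := by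
    intro l hl
    have hperm := List.perm_cons_erase hl
    constructor
    · have := hperm.flatten.length_eq
      rw [this, List.flatten_cons, List.length_append]
    · have := hperm.length_eq
      rw [List.length_cons] at this
      exact this
  have hlt : ∀ l ∈ P, P.flatten.length < k + l.length := by
    intro l hl
    by_contra hcon
    push Not at hcon
    obtain ⟨e1, e2⟩ := herase l hl
    have hk' : k ≤ (P.erase l).flatten.length := by omega
    have h2 := hopt (P.erase l) (hP.of_subset (hP.nodup.erase l)
      (fun l' hl' => List.mem_of_mem_erase hl')) (fun l' hl' => hE l' (List.mem_of_mem_erase hl'))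
      hk'
    rw [e2, Nat.mul_add] at h2
    have h3 := hE l hl
    have h4 := hp.hE
    omega
  have hbig : ∀ l ∈ P, e - w + 2 ≤ l.length := by
    intro l hl
    have := hlt l hl
    omega
  refine ⟨hlen1, ?_, hlng, hlt, hbig⟩
  by_contra hcon
  push Not at hcon
  obtain ⟨l, hl⟩ := List.exists_mem_of_ne_nil P hne
  obtain ⟨e1, e2⟩ := herase l hl
  have h5 := opp_len (e - w + 1) (P.erase l) (fun l' hl' => by
    have := hbig l' (List.mem_of_mem_erase hl')
    omega)
  have h6 : s * (e - w + 1) ≤ (P.erase l).length * (e - w + 1) :=
    Nat.mul_le_mul_right _ (by omega)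
  have h7 := hlt l hl
  have h8 := hp.hs
  omega

end Pool.Agent.Helper71.BM
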