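import Pool.Agent.Helper71.BM.Basic

/-!
# Pairing the paths of a linkage on the middle parts of ears
-/

set_option autoImplicit false

namespace Pool.Agent.Helper71.BM

open Finset ErdPos

section pair

variable {V : Type}

lemma pair_core_get (L : ℕ) (l : List V) (i : ℕ) (hi : i < (core L l).length) :
    (core L l)[i]? = l[L + i]? ∧ L + i + L < l.length := by
  unfold core at *
  simp only [List.length_take, List.length_drop] at hi
  constructor
  · rw [List.getElem?_take, if_pos (by omega), List.getElem?_drop]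
  · omega

lemma pair_core_mid (L : ℕ) (l : List V) (i j : ℕ) (hj : j < (core L l).length) (hij : i < j) :
    ((core L l).drop (i + 1)).take (j - i - 1) =
      (l.drop (L + i + 1)).take (L + j - (L + i) - 1) := by
  unfold core at *
  simp only [List.length_take, List.length_drop] at hj
  rw [List.drop_take, List.drop_drop, List.take_take]
  have h1 : min (j - i - 1) (l.length - 2 * L - (i + 1)) = L + j - (L + i) - 1 := by omega
  have h2 : L + (i + 1) = L + i + 1 := by omega
  rw [h1, h2]

lemma pair_mem_F {Lam : ℕ} {r : Rc V} (hi : Lam ≤ r.i)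
    (hj : r.j + Lam < r.l.length) {v : V} (hv : v ∈ r.F) :
    v ∈ r.p ∨ v ∈ r.p' ∨ v ∈ core Lam r.l := by
  unfold Rc.F at hv
  simp only [List.mem_append, List.mem_reverse] at hv
  rcases hv with (h | h) | h
  · exact Or.inl h
  · right; right
    rw [List.mem_iff_getElem?] at h ⊢
    obtain ⟨k, hk⟩ := h
    by_cases hk2 : k < r.j - r.i - 1
    · rw [List.getElem?_take, if_pos hk2, List.getElem?_drop] at hk
      refine ⟨r.i + 1 + k - Lam, ?_⟩
      unfold core
      rw [List.getElem?_take, if_pos (by omega), List.getElem?_drop]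
      have h3 : Lam + (r.i + 1 + k - Lam) = r.i + 1 + k := by omega
      rw [h3]
      exact hk
    · rw [List.getElem?_take, if_neg hk2] at hk
      simp at hk
  · exact Or.inr (Or.inl h)

lemma pair_ind (hpr : ST_PR0) (Lam : ℕ) : ∀ (P : List (List V)) (Q : List (List V)),
    (P.map (core Lam)).flatten.Nodup → Q.flatten.Nodup →
    (∀ q ∈ Q, ∃ x ∈ (P.map (core Lam)).flatten, q.head? = some x ∧
      ∀ v ∈ q, v ∈ (P.map (core Lam)).flatten → v = x) →
    ∃ D : List (Rc V), Q.length ≤ 2 * D.length + P.length ∧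
      (∀ r ∈ D, r.ok P ∧ r.p ∈ Q ∧ r.p' ∈ Q ∧ Lam ≤ r.i ∧ r.j + Lam < r.l.length) ∧
      (D.map Rc.F).flatten.Nodup ∧ (D.flatMap (fun r => [r.p, r.p'])).Nodup := by
  classical
  intro P
  induction P with
  | nil =>
    intro Q _ _ hQ
    have hQ0 : Q = [] := by
      rw [List.eq_nil_iff_forall_not_mem]
      intro q hq
      obtain ⟨x, hx, _⟩ := hQ q hq
      simp at hx
    subst hQ0
    exact ⟨[], by simp, by simp, by simp, by simp⟩
  | cons l P ih =>
    intro Q hP hQn hQ
    simp only [List.map_cons, List.flatten_cons] at hP hQ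
    have hP1 : (core Lam l).Nodup := (List.nodup_append.1 hP).1
    have hP2 : (P.map (core Lam)).flatten.Nodup := (List.nodup_append.1 hP).2.1
    have hPd : ∀ a ∈ core Lam l, a ∉ (P.map (core Lam)).flatten := by
      intro a ha hb
      exact (List.nodup_append.1 hP).2.2 a ha a hb rfl
    -- the two parts of `Q`
    let c : List V → Bool := fun q => decide (∃ x ∈ core Lam l, q.head? = some x)
    have hperm : (Q.filter c ++ Q.filter (fun q => !c q)).Perm Q := List.filter_append_perm c Q
    have hlen : (Q.filter c).length + (Q.filter (fun q => !c q)).length = Q.length := by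
      have := hperm.length_eq
      rw [List.length_append] at this
      exact this
    have hnd : ((Q.filter c).flatten ++ (Q.filter (fun q => !c q)).flatten).Nodup := by
      rw [← List.flatten_append]
      exact (hperm.flatten.nodup_iff).2 hQn
    have hn1 := (List.nodup_append.1 hnd).1
    have hn2 := (List.nodup_append.1 hnd).2.1
    have hn3 : ∀ a ∈ (Q.filter c).flatten, a ∉ (Q.filter (fun q => !c q)).flatten := by
      intro a ha hb
      exact (List.nodup_append.1 hnd).2.2 a ha a hb rfl
    have hc1 : ∀ q ∈ Q.filter c, q ∈ Q ∧ ∃ x ∈ core Lam l, q.head? = some x := by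
      intro q hq
      rw [List.mem_filter] at hq
      exact ⟨hq.1, of_decide_eq_true hq.2⟩
    have hc2 : ∀ q ∈ Q.filter (fun q => !c q), q ∈ Q ∧ ¬ ∃ x ∈ core Lam l, q.head? = some x := by
      intro q hq
      rw [List.mem_filter] at hq
      refine ⟨hq.1, ?_⟩
      have h2 := hq.2
      simp only [Bool.not_eq_true'] at h2
      exact of_decide_eq_false h2
    obtain ⟨D1, a1, a2, a3, a4⟩ := hpr V (core Lam l) (Q.filter c) hP1 hn1 (by
      intro q hq
      obtain ⟨hq1, x, hx, hqx⟩ := hc1 q hq
      obtain ⟨y, hy, hqy, hv⟩ := hQ q hq1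
      have hxy : y = x := by
        rw [hqx] at hqy
        exact (Option.some_inj.1 hqy).symm
      subst hxy
      exact ⟨y, hx, hqx, fun v hvq hvl => hv v hvq (List.mem_append_left _ hvl)⟩)
    obtain ⟨D2, b1, b2, b3, b4⟩ := ih (Q.filter (fun q => !c q)) hP2 hn2 (by
      intro q hq
      obtain ⟨hq1, hq2⟩ := hc2 q hq
      obtain ⟨y, hy, hqy, hv⟩ := hQ q hq1
      refine ⟨y, ?_, hqy, fun v hvq hvl => hv v hvq (List.mem_append_right _ hvl)⟩
      rcases List.mem_append.1 hy with hy | hy
      · exact absurd ⟨y, hy, hqy⟩ hq2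
      · exact hy)
    -- translate the records of `D1`
    let τ : Rc V → Rc V := fun r => ⟨l, Lam + r.i, Lam + r.j, r.p, r.p'⟩
    have hτ : ∀ r ∈ D1, (τ r).ok (l :: P) ∧ Lam ≤ (τ r).i ∧ (τ r).j + Lam < (τ r).l.length ∧
        (τ r).F = r.F := by
      intro r hr
      obtain ⟨⟨h1, h2, ⟨x, hx, hx'⟩, ⟨y, hy, hy'⟩⟩, _, _⟩ := a2 r hr
      have hrl : r.l = core Lam l := by simpa using h1
      rw [hrl] at hx hy
      have hj : r.j < (core Lam l).length := by
        by_contra hcon
        rw [List.getElem?_eq_none (by omega)] at hy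
        simp at hy
      obtain ⟨g1, g2⟩ := pair_core_get Lam l r.i (by omega)
      obtain ⟨g3, g4⟩ := pair_core_get Lam l r.j hj
      refine ⟨⟨List.mem_cons_self, by show Lam + r.i < Lam + r.j; omega,
        ⟨x, by rw [← g1]; exact hx, hx'⟩, ⟨y, by rw [← g3]; exact hy, hy'⟩⟩,
        Nat.le_add_right _ _, g4, ?_⟩
      show r.p.reverse ++ (l.drop (Lam + r.i + 1)).take (Lam + r.j - (Lam + r.i) - 1) ++ r.p' =
        r.p.reverse ++ (r.l.drop (r.i + 1)).take (r.j - r.i - 1) ++ r.p'
      rw [hrl, pair_core_mid Lam l r.i r.j hj h2]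
    have hF1 : (D1.map τ).map Rc.F = D1.map Rc.F := by
      rw [List.map_map]
      apply List.map_congr_left
      intro r hr
      exact (hτ r hr).2.2.2
    have hm1 : ∀ v ∈ (D1.map Rc.F).flatten, v ∈ (Q.filter c).flatten ∨ v ∈ core Lam l := by
      intro v hv
      rw [List.mem_flatten] at hv
      obtain ⟨f, hf, hvf⟩ := hv
      rw [List.mem_map] at hf
      obtain ⟨r, hr, rfl⟩ := hf
      obtain ⟨g1, g2, g3, g4⟩ := hτ r hr
      rw [← g4] at hvf
      rcases pair_mem_F (Lam := Lam) g2 g3 hvf with h | h | h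
      · exact Or.inl (List.mem_flatten.2 ⟨_, (a2 r hr).2.1, h⟩)
      · exact Or.inl (List.mem_flatten.2 ⟨_, (a2 r hr).2.2, h⟩)
      · exact Or.inr h
    have hm2 : ∀ v ∈ (D2.map Rc.F).flatten, v ∈ (Q.filter (fun q => !c q)).flatten ∨
        v ∈ (P.map (core Lam)).flatten := by
      intro v hv
      rw [List.mem_flatten] at hv
      obtain ⟨f, hf, hvf⟩ := hv
      rw [List.mem_map] at hf
      obtain ⟨r, hr, rfl⟩ := hf
      obtain ⟨g1, g2, g3, g4, g5⟩ := b2 r hr
      rcases pair_mem_F (Lam := Lam) g4 g5 hvf with h | h | h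
      · exact Or.inl (List.mem_flatten.2 ⟨_, g2, h⟩)
      · exact Or.inl (List.mem_flatten.2 ⟨_, g3, h⟩)
      · exact Or.inr (List.mem_flatten.2 ⟨_, List.mem_map.2 ⟨_, g1.1, rfl⟩, h⟩)
    refine ⟨D1.map τ ++ D2, ?_, ?_, ?_, ?_⟩
    · rw [List.length_append, List.length_map, List.length_cons]
      omega
    · intro r hr
      rcases List.mem_append.1 hr with hr | hr
      · rw [List.mem_map] at hr
        obtain ⟨r0, hr0, rfl⟩ := hr
        obtain ⟨g1, g2, g3, _⟩ := hτ r0 hr0
        exact ⟨g1, (hc1 _ (a2 r0 hr0).2.1).1, (hc1 _ (a2 r0 hr0).2.2).1, g2, g3⟩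
      · obtain ⟨g1, g2, g3, g4, g5⟩ := b2 r hr
        exact ⟨⟨List.mem_cons_of_mem _ g1.1, g1.2⟩, (hc2 _ g2).1, (hc2 _ g3).1, g4, g5⟩
    · rw [List.map_append, hF1, List.flatten_append, List.nodup_append]
      refine ⟨a3, b3, ?_⟩
      intro v hv w hw hvw
      subst hvw
      have hhead : ∀ q ∈ Q, v ∈ q → v ∈ core Lam l ++ (P.map (core Lam)).flatten →
          q.head? = some v := by
        intro q hq hvq hvc
        obtain ⟨y, _, hqy, hvy⟩ := hQ q hq
        rw [hvy v hvq hvc]
        exact hqy
      rcases hm1 v hv with h | h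
      · rcases hm2 v hw with h' | h'
        · exact hn3 v h h'
        · obtain ⟨q, hq, hvq⟩ := List.mem_flatten.1 h
          obtain ⟨hq1, x, hx, hqx⟩ := hc1 q hq
          have := hhead q hq1 hvq (List.mem_append_right _ h')
          rw [hqx, Option.some_inj] at this
          subst this
          exact hPd _ hx h'
      · rcases hm2 v hw with h' | h'
        · obtain ⟨q, hq, hvq⟩ := List.mem_flatten.1 h'
          obtain ⟨hq1, hq2⟩ := hc2 q hq
          exact hq2 ⟨v, h, hhead q hq1 hvq (List.mem_append_left _ h)⟩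
        · exact hPd v h h'
    · rw [List.flatMap_append, List.nodup_append]
      have hfl : (D1.map τ).flatMap (fun r => [r.p, r.p']) = D1.flatMap (fun r => [r.p, r.p']) := by
        rw [List.flatMap_map]
      rw [hfl]
      refine ⟨a4, b4, ?_⟩
      intro q hq q' hq' hqq
      subst hqq
      have h1 : q ∈ Q.filter c := by
        rw [List.mem_flatMap] at hq
        obtain ⟨r, hr, hqr⟩ := hq
        have := a2 r hr
        simp only [List.mem_cons, List.not_mem_nil, or_false] at hqr
        rcases hqr with rfl | rfl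
        · exact this.2.1
        · exact this.2.2
      have h2 : q ∈ Q.filter (fun q => !c q) := by
        rw [List.mem_flatMap] at hq'
        obtain ⟨r, hr, hqr⟩ := hq'
        have := b2 r hr
        simp only [List.mem_cons, List.not_mem_nil, or_false] at hqr
        rcases hqr with rfl | rfl
        · exact this.2.1
        · exact this.2.2.1
      exact (hc2 q h2).2 (hc1 q h1).2

end pair

theorem st_PAIR (h1 : ST_PR0) : ST_PAIR := by
  intro V _ _ G q W t Lam P Q hinj hP hLam hlen hQ
  have hsub : ∀ l ∈ P, ∀ v ∈ core Lam l, v ∈ l := by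
    intro l _ v hv
    unfold core at hv
    exact List.mem_of_mem_drop (List.mem_of_mem_take hv)
  have hcn : (P.map (core Lam)).flatten.Nodup := by
    have : (P.map (core Lam)).flatten.Sublist P.flatten := by
      clear hP hlen hQ hsub
      induction P with
      | nil => simp
      | cons l P ih =>
        simp only [List.map_cons, List.flatten_cons]
        exact List.Sublist.append ((List.take_sublist _ _).trans (List.drop_sublist _ _)) ih
    exact this.nodup hP.1
  have hU : ∀ v, v ∈ Ucore Lam P ↔ v ∈ (P.map (core Lam)).flatten := by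
    intro v
    unfold Ucore
    rw [List.mem_toFinset]
  obtain ⟨D, d1, d2, d3, d4⟩ := pair_ind h1 Lam P Q hcn hQ.1 (by
    intro l hl
    obtain ⟨_, a, ha, b, hb, hab, h2, h3⟩ := hQ.2 l hl
    exact ⟨a, (hU a).1 ha, hab.1, fun v hv hv' => h2 v hv ((hU v).2 hv')⟩)
  refine ⟨D, d1, d2, ⟨d3, ?_⟩, d4⟩
  intro f hf
  rw [List.mem_map] at hf
  obtain ⟨r, hr, rfl⟩ := hf
  obtain ⟨⟨hrP, hij, ⟨x, hx, hx'⟩, ⟨y, hy, hy'⟩⟩, hp, hp', hi, hj⟩ := d2 r hr
  obtain ⟨p1, a, ha, b, hb, hab, h2, h3⟩ := hQ.2 r.p hp
  obtain ⟨p1', a', ha', b', hb', hab', h2', h3'⟩ := hQ.2 r.p' hp'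
  have hax : a = x := by
    have := hab.1
    rw [hx', Option.some_inj] at this
    exact this.symm
  have hay : a' = y := by
    have := hab'.1
    rw [hy', Option.some_inj] at this
    exact this.symm
  subst hax hay
  rw [mem_Tm] at hb hb'
  obtain ⟨α, hα, hαb⟩ := hb
  obtain ⟨β, hβ, hβb⟩ := hb'
  obtain ⟨ea, eb, he⟩ := hP.2 r.l hrP
  obtain ⟨he1, he2, he3, he4, he5, he6⟩ := he
  -- the terminals are not in the core
  have hcoreT : ∀ v ∈ core Lam r.l, ∀ i < q, v ≠ t i := by
    intro v hv i hi' hvi
    have hvl : v ∈ r.l := hsub r.l hrP v hv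
    have hnd : r.l.Nodup := he4.2.2.1
    rw [List.mem_iff_getElem?] at hv
    obtain ⟨k, hk⟩ := hv
    have hkl : k < (core Lam r.l).length := by
      by_contra hcon
      rw [List.getElem?_eq_none (by omega)] at hk
      simp at hk
    obtain ⟨g1, g2⟩ := pair_core_get Lam r.l k hkl
    rw [g1] at hk
    rcases he6 v hvl i hi' hvi with h | h
    · rw [h] at hvi
      have h0 : r.l[0]? = some v := by
        rw [← List.head?_eq_getElem?, he4.1, hvi]
      have := (List.getElem?_inj (by omega : 0 < r.l.length) hnd).1 (h0.trans hk.symm)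
      omega
    · rw [h] at hvi
      have h0 : r.l[r.l.length - 1]? = some v := by
        rw [← List.getLast?_eq_getElem?, he4.2.1, hvi]
      have := (List.getElem?_inj (by omega : r.l.length - 1 < r.l.length) hnd).1
        (h0.trans hk.symm)
      omega
  have hFn : r.F.Nodup := nodup_of_mem_flatten d3 (List.mem_map.2 ⟨r, hr, rfl⟩)
  have hpp : r.p ≠ r.p' := by
    intro hcon
    have h5 : (r.p.reverse ++ (r.l.drop (r.i + 1)).take (r.j - r.i - 1) ++ r.p').Nodup := hFn
    have h6 := (List.nodup_append.1 h5).2.2 a (List.mem_append_left _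
      (List.mem_reverse.2 hab.head_mem)) a (by rw [← hcon]; exact hab.head_mem)
    exact h6 rfl
  refine ⟨α, β, hα, hβ, ?_, ?_, ?_, ?_⟩
  · intro hcon
    apply hpp
    refine eq_of_mem_flatten hQ.1 hp hp' (v := b) hab.last_mem ?_
    rw [← hαb, hcon, hβb]
    exact hab'.last_mem
  · -- the list is a path
    rw [hαb, hβb]
    refine ⟨?_, ?_, hFn, ?_⟩
    · unfold Rc.F
      rw [List.append_assoc, List.head?_append, List.head?_reverse, hab.2.1]
      rfl
    · unfold Rc.F
      rw [List.getLast?_append, hab'.2.1]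
      rfl
    · obtain ⟨pt, hpt⟩ := hab.eq_cons
      obtain ⟨pt', hpt'⟩ := hab'.eq_cons
      have hdec : r.l = r.l.take r.i ++ a :: (r.l.drop (r.i + 1)).take (r.j - r.i - 1) ++
          a' :: r.l.drop (r.j + 1) := by
        have e1 : r.l.drop r.i = a :: r.l.drop (r.i + 1) := by
          obtain ⟨hlt, heq⟩ := List.getElem?_eq_some_iff.1 hx
          rw [List.drop_eq_getElem_cons hlt, heq]
        have e2 : r.l.drop r.j = a' :: r.l.drop (r.j + 1) := by
          obtain ⟨hlt, heq⟩ := List.getElem?_eq_some_iff.1 hy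
          rw [List.drop_eq_getElem_cons hlt, heq]
        have e3 : r.l.drop (r.i + 1) = (r.l.drop (r.i + 1)).take (r.j - r.i - 1) ++
            r.l.drop r.j := by
          have e4 : r.l.drop r.j = (r.l.drop (r.i + 1)).drop (r.j - r.i - 1) := by
            rw [List.drop_drop]
            congr 1
            omega
          rw [e4, List.take_append_drop]
        calc r.l = r.l.take r.i ++ r.l.drop r.i := (List.take_append_drop _ _).symm
          _ = r.l.take r.i ++ (a :: r.l.drop (r.i + 1)) := by rw [e1]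
          _ = r.l.take r.i ++ (a :: ((r.l.drop (r.i + 1)).take (r.j - r.i - 1) ++
            (a' :: r.l.drop (r.j + 1)))) := by rw [← e2, ← e3]
          _ = _ := by simp
      have hmid : PL G a a' (a :: (r.l.drop (r.i + 1)).take (r.j - r.i - 1) ++ [a']) := by
        rw [hdec] at he4
        exact he4.mid
      have hc1 : (pt.reverse ++ [a]).IsChain G.Adj := by
        have := hab.reverse.2.2.2
        rw [hpt, List.reverse_cons] at this
        exact this
      have hc2 := hmid.2.2.2
      have hc3 : ([a'] ++ pt').IsChain G.Adj := by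
        have := hab'.2.2.2
        rw [hpt'] at this
        exact this
      have hF : r.F = pt.reverse ++ (a :: (r.l.drop (r.i + 1)).take (r.j - r.i - 1) ++ [a']) ++
          pt' := by
        unfold Rc.F
        rw [hpt, hpt']
        simp
      rw [hF]
      have hc4 : (pt.reverse ++ (a :: (r.l.drop (r.i + 1)).take (r.j - r.i - 1) ++ [a'])).IsChain
          G.Adj := by
        have h7 := List.IsChain.append_overlap (l₁ := pt.reverse) (l₂ := [a])
          (l₃ := (r.l.drop (r.i + 1)).take (r.j - r.i - 1) ++ [a']) hc1 (by simpa using hc2)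
          (by simp)
        simpa using h7
      have h8 := List.IsChain.append_overlap
        (l₁ := pt.reverse ++ (a :: (r.l.drop (r.i + 1)).take (r.j - r.i - 1))) (l₂ := [a'])
        (l₃ := pt') (by simpa using hc4) hc3 (by simp)
      simpa using h8
  · intro v hv
    rcases pair_mem_F (Lam := Lam) hi hj hv with h | h | h
    · exact (mem_sdiff.1 (p1 v h)).2
    · exact (mem_sdiff.1 (p1' v h)).2
    · exact he5 v (hsub _ hrP v h)
  · intro v hv i hi' hvi
    rcases pair_mem_F (Lam := Lam) hi hj hv with h | h | h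
    · left
      have h4 := h3 v h (mem_Tm.2 ⟨i, hi', hvi.symm⟩)
      exact hinj i hi' α hα (by rw [← hvi, h4, hαb])
    · right
      have h4 := h3' v h (mem_Tm.2 ⟨i, hi', hvi.symm⟩)
      exact hinj i hi' β hβ (by rw [← hvi, h4, hβb])
    · exact absurd hvi (hcoreT v h i hi')

end Pool.Agent.Helper71.BM
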